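import Pool.Agent.W213.MG.Stm

set_option autoImplicit false

/-! Left quotients of the language of the automaton `M n f` (part QUO of project MG). -/

namespace Pool.Agent.W856.MG

open Finset Pool.Agent.W213.MG

theorem shift_fold {α : Type} (a : α) (n : ℕ) (stp : Finset ℕ → α → Finset ℕ)
    (hA : ∀ S y, y ∈ stp S a ↔ (y < n ∧ ∃ i ∈ S, i + 1 = y)) :
    ∀ k (S : Finset ℕ) (x : ℕ), x + k < n →
      (x + k ∈ (List.replicate k a).foldl stp S ↔ x ∈ S) := by
  intro k
  induction k with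
  | zero => intro S x _; simp
  | succ k ih =>
    intro S x hx
    rw [List.replicate_succ, List.foldl_cons, show x + (k + 1) = (x + 1) + k by ring,
      ih _ _ (by omega), hA]
    constructor
    · rintro ⟨_, i, hi, h⟩
      obtain rfl : i = x := by omega
      exact hi
    · intro h; exact ⟨by omega, x, h, rfl⟩

theorem quo_abs {α : Type} (L : Set (List α)) (a : α) (n : ℕ)
    (stp : Finset ℕ → α → Finset ℕ) (S0 : Finset ℕ)
    (hA : ∀ S y, y ∈ stp S a ↔ (y < n ∧ ∃ i ∈ S, i + 1 = y))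
    (hsub : ∀ w : List α, w.foldl stp S0 ⊆ range n)
    (hacc : ∀ w, w ∈ L ↔ n - 1 ∈ w.foldl stp S0) (R : Finset (Finset ℕ))
    (hR : ∀ S, S ∈ R ↔ ∃ w : List α, w.foldl stp S0 = S) :
    Nat.card (Set.range (fun u : List α => ({w : List α | u ++ w ∈ L} : Set (List α))))
      = R.card := by
  have h1 : ∀ u : List α, ({w : List α | u ++ w ∈ L} : Set (List α)) =
      (fun S : Finset ℕ => ({w | n - 1 ∈ w.foldl stp S} : Set (List α))) (u.foldl stp S0) := by
    intro u
    ext w
    show u ++ w ∈ L ↔ n - 1 ∈ w.foldl stp (u.foldl stp S0)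
    rw [hacc, List.foldl_append]
  have hrange : Set.range (fun u : List α => ({w : List α | u ++ w ∈ L} : Set (List α))) =
      (fun S : Finset ℕ => ({w | n - 1 ∈ w.foldl stp S} : Set (List α))) ''
        (R : Set (Finset ℕ)) := by
    ext K
    constructor
    · rintro ⟨u, rfl⟩
      exact ⟨u.foldl stp S0, (hR _).2 ⟨u, rfl⟩, (h1 u).symm⟩
    · rintro ⟨S, hS, rfl⟩
      obtain ⟨u, rfl⟩ := (hR S).1 hS
      exact ⟨u, h1 u⟩
  have hinj : Set.InjOn (fun S : Finset ℕ => ({w | n - 1 ∈ w.foldl stp S} : Set (List α)))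
      (R : Set (Finset ℕ)) := by
    intro S hS T hT h
    obtain ⟨u, rfl⟩ := (hR S).1 hS
    obtain ⟨v, rfl⟩ := (hR T).1 hT
    ext i
    by_cases hi : i < n
    · have e : i + (n - 1 - i) = n - 1 := by omega
      have k1 := shift_fold a n stp hA (n - 1 - i) (u.foldl stp S0) i (by omega)
      have k2 := shift_fold a n stp hA (n - 1 - i) (v.foldl stp S0) i (by omega)
      rw [e] at k1 k2
      have h' : (List.replicate (n - 1 - i) a ∈
          ({w | n - 1 ∈ w.foldl stp (u.foldl stp S0)} : Set (List α))) ↔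
          (List.replicate (n - 1 - i) a ∈
          ({w | n - 1 ∈ w.foldl stp (v.foldl stp S0)} : Set (List α))) := by
        have := congrArg (fun K : Set (List α) => List.replicate (n - 1 - i) a ∈ K) h
        exact iff_of_eq this
      rw [← k1, ← k2]
      exact h'
    · constructor
      · intro h; exact absurd (mem_range.1 (hsub u h)) hi
      · intro h; exact absurd (mem_range.1 (hsub v h)) hi
  rw [hrange, Nat.card_coe_set_eq, hinj.ncard_image, Set.ncard_coe_finset]

theorem nfa_eval {α : Type} {n : ℕ} (M : NFA α (Fin n)) (stp : Finset ℕ → α → Finset ℕ)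
    (S0 : Finset ℕ) (hstart : ∀ j : Fin n, j ∈ M.start ↔ j.val ∈ S0)
    (hstep : ∀ (x : α) (S : Finset ℕ), S ⊆ range n → ∀ j : Fin n,
      (j.val ∈ stp S x ↔ ∃ i : Fin n, i.val ∈ S ∧ j ∈ M.step i x))
    (hsub : ∀ S x, S ⊆ range n → stp S x ⊆ range n) (h0 : S0 ⊆ range n) (w : List α) :
    w.foldl stp S0 ⊆ range n ∧ ∀ j : Fin n, j ∈ M.eval w ↔ j.val ∈ w.foldl stp S0 := by
  induction w using List.reverseRecOn with
  | nil => exact ⟨h0, fun j => hstart j⟩
  | append_singleton w x ih =>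
    rw [List.foldl_append, List.foldl_cons, List.foldl_nil]
    refine ⟨hsub _ _ ih.1, ?_⟩
    intro j
    rw [NFA.eval_append_singleton, NFA.mem_stepSet, hstep x _ ih.1]
    constructor
    · rintro ⟨i, hi, hj⟩; exact ⟨i, (ih.2 i).1 hi, hj⟩
    · rintro ⟨i, hi, hj⟩; exact ⟨i, (ih.2 i).2 hi, hj⟩

/-- one step of the subset automaton -/
def stp (n : ℕ) (f : ℕ → Bool) (S : Finset ℕ) (x : Fin 2) : Finset ℕ :=
  if x = 0 then A n S else B n f S

theorem stp_sub (n : ℕ) (f : ℕ → Bool) (hn : 2 ≤ n) (S : Finset ℕ) (x : Fin 2)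
    (_h : S ⊆ range n) : stp n f S x ⊆ range n := by
  intro j hj
  unfold stp at hj
  rw [mem_range]
  split_ifs at hj with hx
  · rw [mem_A] at hj; exact hj.1
  · rw [mem_B] at hj
    rcases hj with hj | hj | hj
    · exact hj.1
    · omega
    · omega

theorem stp_step (n : ℕ) (f : ℕ → Bool) (x : Fin 2) (S : Finset ℕ)
    (hS : S ⊆ range n) (j : Fin n) :
    j.val ∈ stp n f S x ↔ ∃ i : Fin n, i.val ∈ S ∧ j ∈ (M n f).step i x := by
  have hb : ∀ i ∈ S, i < n := fun i hi => mem_range.1 (hS hi)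
  unfold stp M
  dsimp only
  by_cases hx : x = 0
  · simp only [hx, if_true]
    rw [mem_A]
    constructor
    · rintro ⟨_, i, hi, h⟩
      exact ⟨⟨i, hb i hi⟩, hi, h.symm⟩
    · rintro ⟨i, hi, h⟩
      exact ⟨j.isLt, i.val, hi, (show j.val = i.val + 1 from h).symm⟩
  · simp only [hx, if_false]
    rw [mem_B]
    constructor
    · rintro (⟨_, i, hi, h⟩ | ⟨h1, h2⟩ | ⟨h1, i, hi, h⟩)
      · exact ⟨⟨i, hb i hi⟩, hi, Or.inl h.symm⟩
      · exact ⟨⟨n - 1, hb _ h2⟩, h2, Or.inr (Or.inl ⟨rfl, h1⟩)⟩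
      · exact ⟨⟨i, hb i hi⟩, hi, Or.inr (Or.inr ⟨h1, h⟩)⟩
    · rintro ⟨i, hi, h⟩
      have h' : j.val = i.val + 1 ∨ (i.val = n - 1 ∧ j.val = n - 1) ∨
        (j.val = 0 ∧ (i.val = 0 ∨ i.val = n - 1 ∨ f i.val = true)) := h
      rcases h' with h' | ⟨h1, h2⟩ | ⟨h1, h2⟩
      · exact Or.inl ⟨j.isLt, i.val, hi, h'.symm⟩
      · exact Or.inr (Or.inl ⟨h2, h1 ▸ hi⟩)
      · exact Or.inr (Or.inr ⟨h1, i.val, hi, h2⟩)

theorem reach_iff (n : ℕ) (f : ℕ → Bool) (S : Finset ℕ) :
    Reach n f S ↔ ∃ w : List (Fin 2), w.foldl (stp n f) {0} = S := by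
  constructor
  · intro h
    induction h with
    | start => exact ⟨[], rfl⟩
    | a S _ ih =>
      obtain ⟨w, rfl⟩ := ih
      refine ⟨w ++ [0], ?_⟩
      rw [List.foldl_append, List.foldl_cons, List.foldl_nil]
      simp [stp]
    | b S _ ih =>
      obtain ⟨w, rfl⟩ := ih
      refine ⟨w ++ [1], ?_⟩
      rw [List.foldl_append, List.foldl_cons, List.foldl_nil]
      simp [stp]
  · rintro ⟨w, rfl⟩
    induction w using List.reverseRecOn with
    | nil => exact Reach.start
    | append_singleton w x ih =>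
      rw [List.foldl_append, List.foldl_cons, List.foldl_nil]
      unfold stp at ih ⊢
      by_cases hx : x = 0
      · rw [if_pos hx]; exact Reach.a _ ih
      · rw [if_neg hx]; exact Reach.b _ ih

/-- Part QUO. -/
theorem quo : QUO := by
  intro n f R hn hR
  have hev := nfa_eval (M n f) (stp n f) {0}
    (fun j => by
      show j.val = 0 ↔ j.val ∈ ({0} : Finset ℕ)
      rw [mem_singleton])
    (fun x S hS j => stp_step n f x S hS j) (fun S x h => stp_sub n f hn S x h)
    (by intro j hj; rw [mem_singleton] at hj; rw [mem_range]; omega)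
  refine quo_abs (M n f).accepts (0 : Fin 2) n (stp n f) {0} ?_ (fun w => (hev w).1) ?_ R ?_
  · intro S y
    unfold stp
    rw [if_pos rfl, mem_A]
  · intro w
    constructor
    · intro h
      obtain ⟨s, hs1, hs2⟩ := NFA.mem_accepts.1 h
      have : s.val = n - 1 := hs1
      rw [← this]
      exact ((hev w).2 s).1 hs2
    · intro h
      refine NFA.mem_accepts.2 ⟨⟨n - 1, by omega⟩, rfl, ?_⟩
      exact ((hev w).2 ⟨n - 1, by omega⟩).2 h
  · intro S
    rw [hR, reach_iff]

end Pool.Agent.W856.MG
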